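import Pool.Agent.Helper7.EC_E.GoalsR

/-! Packet FY of MP_ecc237_nt, Part E: the main sums for `Y` and `W`. -/

set_option autoImplicit false

open MeasureTheory Filter Topology Set

namespace EC237.ZE.PkFY

/-- `Re 1/D`, `D = m + iBz`. -/
noncomputable def R1 (m z B : ℝ) : ℝ := m / (m ^ 2 + B ^ 2 * z ^ 2)

/-- `Re 1/D²`. -/
noncomputable def R2 (m z B : ℝ) : ℝ := (m ^ 2 - B ^ 2 * z ^ 2) / (m ^ 2 + B ^ 2 * z ^ 2) ^ 2

/-- `Re i/D²`. -/
noncomputable def qf (m z B : ℝ) : ℝ := 2 * m * B * z / (m ^ 2 + B ^ 2 * z ^ 2) ^ 2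

theorem qf_neg (m z B : ℝ) : qf m z (-B) = -qf m z B := by
  unfold qf
  rw [neg_sq]
  ring

theorem qf_zero (m z : ℝ) : qf m z 0 = 0 := by
  unfold qf
  simp

theorem R1_neg (m z B : ℝ) : R1 m z (-B) = R1 m z B := by unfold R1; rw [neg_sq]

theorem R2_neg (m z B : ℝ) : R2 m z (-B) = R2 m z B := by unfold R2; rw [neg_sq]

/-- the pointwise identity -/
theorem term_eq {m z B a b e c : ℝ} (hm : m ≠ 0) :
    ((a:ℂ) / ((m:ℂ) + Complex.I * (B:ℂ) * (z:ℂ)) +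
      (c:ℂ) * ((b:ℂ) + Complex.I * (e:ℂ)) / ((m:ℂ) + Complex.I * (B:ℂ) * (z:ℂ)) ^ 2) +
    star ((a:ℂ) / ((m:ℂ) + Complex.I * (B:ℂ) * (z:ℂ)) +
      (c:ℂ) * ((b:ℂ) + Complex.I * (e:ℂ)) / ((m:ℂ) + Complex.I * (B:ℂ) * (z:ℂ)) ^ 2) =
    ((2 * (a * R1 m z B + c * (b * R2 m z B) + c * (e * qf m z B)) : ℝ) : ℂ) := by
  have h0 : m ^ 2 + B ^ 2 * z ^ 2 ≠ 0 := by positivity
  have h1 : (m:ℂ) + Complex.I * (B:ℂ) * (z:ℂ) ≠ 0 := by
    intro h
    have := congrArg Complex.re h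
    simp at this
    exact hm this
  have h2 : (m:ℂ) - Complex.I * (B:ℂ) * (z:ℂ) ≠ 0 := by
    intro h
    have := congrArg Complex.re h
    simp at this
    exact hm this
  have hs : star ((a:ℂ) / ((m:ℂ) + Complex.I * (B:ℂ) * (z:ℂ)) +
      (c:ℂ) * ((b:ℂ) + Complex.I * (e:ℂ)) / ((m:ℂ) + Complex.I * (B:ℂ) * (z:ℂ)) ^ 2) =
      ((a:ℂ) / ((m:ℂ) - Complex.I * (B:ℂ) * (z:ℂ)) +
      (c:ℂ) * ((b:ℂ) - Complex.I * (e:ℂ)) / ((m:ℂ) - Complex.I * (B:ℂ) * (z:ℂ)) ^ 2) := by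
    simp [sub_eq_add_neg]
  have h3 : ((m:ℂ) + Complex.I * (B:ℂ) * (z:ℂ)) * ((m:ℂ) - Complex.I * (B:ℂ) * (z:ℂ)) =
      ((m ^ 2 + B ^ 2 * z ^ 2 : ℝ) : ℂ) := by
    push_cast
    linear_combination (-(B:ℂ) ^ 2 * (z:ℂ) ^ 2) * Complex.I_sq
  have h0' : ((m ^ 2 + B ^ 2 * z ^ 2 : ℝ) : ℂ) ≠ 0 := by exact_mod_cast h0
  rw [hs]
  unfold R1 R2 qf
  obtain ⟨q, hq⟩ : ∃ q : ℝ, q = m ^ 2 + B ^ 2 * z ^ 2 := ⟨_, rfl⟩
  rw [← hq] at h3 h0 h0' ⊢
  have e1 : (a:ℂ) / ((m:ℂ) + Complex.I * (B:ℂ) * (z:ℂ)) =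
      (a:ℂ) * ((m:ℂ) - Complex.I * (B:ℂ) * (z:ℂ)) / (q : ℂ) := by
    rw [← h3]
    field_simp
  have e2 : (a:ℂ) / ((m:ℂ) - Complex.I * (B:ℂ) * (z:ℂ)) =
      (a:ℂ) * ((m:ℂ) + Complex.I * (B:ℂ) * (z:ℂ)) / (q : ℂ) := by
    rw [← h3]
    field_simp
  have e3 : (c:ℂ) * ((b:ℂ) + Complex.I * (e:ℂ)) / ((m:ℂ) + Complex.I * (B:ℂ) * (z:ℂ)) ^ 2 =
      (c:ℂ) * ((b:ℂ) + Complex.I * (e:ℂ)) * ((m:ℂ) - Complex.I * (B:ℂ) * (z:ℂ)) ^ 2 /
        (q : ℂ) ^ 2 := by
    rw [← h3]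
    field_simp
  have e4 : (c:ℂ) * ((b:ℂ) - Complex.I * (e:ℂ)) / ((m:ℂ) - Complex.I * (B:ℂ) * (z:ℂ)) ^ 2 =
      (c:ℂ) * ((b:ℂ) - Complex.I * (e:ℂ)) * ((m:ℂ) + Complex.I * (B:ℂ) * (z:ℂ)) ^ 2 /
        (q : ℂ) ^ 2 := by
    rw [← h3]
    field_simp
  rw [e1, e2, e3, e4]
  push_cast
  field_simp
  linear_combination ((2 : ℂ) * (c:ℂ) * (b:ℂ) * (B:ℂ) ^ 2 * (z:ℂ) ^ 2 -
    4 * (c:ℂ) * (e:ℂ) * (m:ℂ) * (B:ℂ) * (z:ℂ)) * Complex.I_sq

/-- the terms of `S''` -/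
noncomputable def uu (m z : ℝ) (k : ℤ) (j : ℕ) : ℝ := w0 j * qf m z (|(k:ℝ)| + 2 * j)

theorem w0_le (j : ℕ) : 0 ≤ w0 j ∧ w0 j ≤ 1 := by
  unfold w0
  split_ifs <;> norm_num

theorem uu_summable {m z : ℝ} (hm : m ≠ 0) (hz : 0 < z) (k : ℤ) : Summable (uu m z k) := by
  set c : ℝ := min (m ^ 2) (z ^ 2) with hc
  have hc0 : 0 < c := lt_min (by positivity) (by positivity)
  have h : Summable (fun j : ℕ => (2 * |m| * z / c ^ 2 * 2) * (1 / ((j:ℝ) + 1) ^ 2)) := by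
    have h1 := (summable_nat_add_iff (f := fun m : ℕ => 1 / (m:ℝ) ^ 2) 1).2
      (Real.summable_one_div_nat_pow.2 (by norm_num))
    refine (h1.congr fun m => ?_).mul_left _
    push_cast
    rfl
  refine Summable.of_norm_bounded h fun j => ?_
  unfold uu qf
  set A : ℝ := |(k:ℝ)| + 2 * j with hA
  have hj : (0:ℝ) ≤ j := Nat.cast_nonneg j
  have hA0 : 0 ≤ A := by positivity
  have hAj : 2 * (j:ℝ) ≤ A := by rw [hA]; linarith [abs_nonneg (k:ℝ)]
  have h1 : c * (1 + A ^ 2) ≤ m ^ 2 + A ^ 2 * z ^ 2 := by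
    have h2 : c ≤ m ^ 2 := min_le_left _ _
    have h3 : c ≤ z ^ 2 := min_le_right _ _
    nlinarith [sq_nonneg A]
  have h2 : 0 < c * (1 + A ^ 2) := by positivity
  have h3 : (c * (1 + A ^ 2)) ^ 2 ≤ (m ^ 2 + A ^ 2 * z ^ 2) ^ 2 := pow_le_pow_left₀ h2.le h1 2
  rw [Real.norm_eq_abs, abs_mul, abs_of_nonneg (w0_le j).1, abs_div, abs_mul, abs_mul, abs_mul,
    abs_of_nonneg hA0, abs_of_pos hz, abs_of_nonneg (by norm_num : (0:ℝ) ≤ 2),
    abs_of_nonneg (sq_nonneg (m ^ 2 + A ^ 2 * z ^ 2))]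
  have h4 : 2 * |m| * A * z / (m ^ 2 + A ^ 2 * z ^ 2) ^ 2 ≤
      2 * |m| * A * z / (c * (1 + A ^ 2)) ^ 2 :=
    div_le_div_of_nonneg_left (by positivity) (by positivity) h3
  have h5 : 2 * |m| * A * z / (c * (1 + A ^ 2)) ^ 2 ≤
      2 * |m| * z / c ^ 2 * 2 * (1 / ((j:ℝ) + 1) ^ 2) := by
    have h6 : A / (1 + A ^ 2) ^ 2 ≤ 2 * (1 / ((j:ℝ) + 1) ^ 2) := by
      have h7 : A ≤ 1 + A ^ 2 := by nlinarith [sq_nonneg (A - 1)]
      have h8 : ((j:ℝ) + 1) ^ 2 ≤ 2 * (1 + A ^ 2) := by nlinarith [sq_nonneg ((j:ℝ) - 1)]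
      rw [mul_one_div, div_le_div_iff₀ (by positivity) (by positivity)]
      calc A * ((j:ℝ) + 1) ^ 2 ≤ (1 + A ^ 2) * (2 * (1 + A ^ 2)) := by
            refine mul_le_mul h7 h8 (by positivity) (by positivity)
        _ = 2 * (1 + A ^ 2) ^ 2 := by ring
    calc 2 * |m| * A * z / (c * (1 + A ^ 2)) ^ 2 =
        2 * |m| * z / c ^ 2 * (A / (1 + A ^ 2) ^ 2) := by
          field_simp
      _ ≤ 2 * |m| * z / c ^ 2 * (2 * (1 / ((j:ℝ) + 1) ^ 2)) :=
          mul_le_mul_of_nonneg_left h6 (by positivity)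
      _ = _ := by ring
  calc w0 j * (2 * |m| * A * z / (m ^ 2 + A ^ 2 * z ^ 2) ^ 2) ≤
      1 * (2 * |m| * A * z / (m ^ 2 + A ^ 2 * z ^ 2) ^ 2) :=
        mul_le_mul_of_nonneg_right (w0_le j).2 (by positivity)
    _ ≤ _ := by rw [one_mul]; exact h4.trans h5

/-- the middle terms -/
noncomputable def ff (m z : ℝ) (k n : ℤ) : ℝ :=
  ((n.sign : ℝ) - ((k - n).sign : ℝ)) * qf m z ((k:ℝ) - 2 * n)

theorem ff_hasSum {m z : ℝ} (hm : m ≠ 0) (hz : 0 < z) (k : ℤ) :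
    HasSum (ff m z k) (-4 * ∑' j, uu m z k j) := by
  have hu := ((uu_summable hm hz k).hasSum).mul_left (-2)
  have key : ∀ i1 i2 : ℕ → ℤ, Function.Injective i1 → Function.Injective i2 →
      (∀ n, ff m z k n = Function.extend i1 (fun j => -2 * uu m z k j) 0 n +
        Function.extend i2 (fun j => -2 * uu m z k j) 0 n) →
      HasSum (ff m z k) (-4 * ∑' j, uu m z k j) := by
    intro i1 i2 h1 h2 h3
    have a1 := (hasSum_extend_zero h1).2 hu
    have a2 := (hasSum_extend_zero h2).2 hu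
    have a3 := a1.add a2
    have e : ff m z k = fun n => Function.extend i1 (fun j => -2 * uu m z k j) 0 n +
        Function.extend i2 (fun j => -2 * uu m z k j) 0 n := funext h3
    rw [e]
    have e2 : -4 * ∑' j, uu m z k j = -2 * ∑' j, uu m z k j + -2 * ∑' j, uu m z k j := by ring
    rw [e2]
    exact a3
  rcases le_or_gt 0 k with hk | hk
  · have habs : |(k:ℝ)| = k := abs_of_nonneg (by exact_mod_cast hk)
    have i1 : Function.Injective (fun j : ℕ => -(j:ℤ)) := fun a b h => by simpa using h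
    have i2 : Function.Injective (fun j : ℕ => k + (j:ℤ)) := fun a b h => by simpa using h
    refine key _ _ i1 i2 fun n => ?_
    have x1 : 0 < n → Function.extend (fun j : ℕ => -(j:ℤ)) (fun j => -2 * uu m z k j) 0 n = 0 := by
      intro h
      refine Function.extend_apply' _ _ _ ?_
      rintro ⟨j, hj⟩
      have hj' : -(j:ℤ) = n := hj
      omega
    have x2 : n < k → Function.extend (fun j : ℕ => k + (j:ℤ)) (fun j => -2 * uu m z k j) 0 n = 0 := by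
      intro h
      refine Function.extend_apply' _ _ _ ?_
      rintro ⟨j, hj⟩
      have hj' : k + (j:ℤ) = n := hj
      omega
    have y1 : ∀ j : ℕ, Function.extend (fun j : ℕ => -(j:ℤ)) (fun j => -2 * uu m z k j) 0 (-(j:ℤ)) =
        -2 * uu m z k j := fun j => i1.extend_apply _ _ j
    have y2 : ∀ j : ℕ, Function.extend (fun j : ℕ => k + (j:ℤ)) (fun j => -2 * uu m z k j) 0
        (k + (j:ℤ)) = -2 * uu m z k j := fun j => i2.extend_apply _ _ j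
    rcases lt_trichotomy n 0 with hn | hn | hn
    · -- `n < 0`
      obtain ⟨j, rfl⟩ : ∃ j : ℕ, n = -(j:ℤ) := ⟨(-n).toNat, by omega⟩
      rw [y1, x2 (by omega)]
      have hj : j ≠ 0 := by omega
      unfold ff uu w0
      rw [Int.sign_eq_neg_one_of_neg hn, Int.sign_eq_one_of_pos (by omega), if_neg hj, habs]
      push_cast
      rw [show (k:ℝ) - 2 * -(j:ℝ) = k + 2 * j by ring]
      ring
    · subst hn
      rcases eq_or_lt_of_le hk with hk0 | hk0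
      · subst hk0
        have z1 := y1 0
        have z2 := y2 0
        simp only [Nat.cast_zero, neg_zero, add_zero] at z1 z2
        rw [z1, z2]
        unfold ff uu w0
        simp [qf_zero]
      · have z1 := y1 0
        simp only [Nat.cast_zero, neg_zero] at z1
        rw [z1, x2 hk0]
        unfold ff uu w0
        rw [Int.sign_zero, Int.sign_eq_one_of_pos (by omega), if_pos rfl, habs]
        push_cast
        rw [show (k:ℝ) - 2 * 0 = k + 2 * 0 by ring]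
        ring
    · rcases lt_or_ge n k with hnk | hnk
      · rw [x1 hn, x2 hnk]
        unfold ff
        rw [Int.sign_eq_one_of_pos hn, Int.sign_eq_one_of_pos (by omega)]
        ring
      · obtain ⟨j, rfl⟩ : ∃ j : ℕ, n = k + (j:ℤ) := ⟨(n - k).toNat, by omega⟩
        rw [x1 hn, y2]
        rcases Nat.eq_zero_or_pos j with hj | hj
        · subst hj
          unfold ff uu w0
          rw [Int.sign_eq_one_of_pos hn, if_pos rfl, habs]
          have e0 : k - (k + ((0:ℕ):ℤ)) = 0 := by push_cast; ring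
          rw [e0, Int.sign_zero]
          push_cast
          rw [show (k:ℝ) - 2 * (k + 0) = -(k + 2 * 0) by ring, qf_neg]
          ring
        · unfold ff uu w0
          rw [Int.sign_eq_one_of_pos hn, Int.sign_eq_neg_one_of_neg (by omega),
            if_neg (by omega), habs]
          push_cast
          rw [show (k:ℝ) - 2 * (k + j) = -(k + 2 * j) by ring, qf_neg]
          ring
  · have habs : |(k:ℝ)| = -k := abs_of_neg (by exact_mod_cast hk)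
    have i1 : Function.Injective (fun j : ℕ => (j:ℤ)) := fun a b h => by simpa using h
    have i2 : Function.Injective (fun j : ℕ => k - (j:ℤ)) := fun a b h => by simpa using h
    refine key _ _ i1 i2 fun n => ?_
    have x1 : n < 0 → Function.extend (fun j : ℕ => (j:ℤ)) (fun j => -2 * uu m z k j) 0 n = 0 := by
      intro h
      refine Function.extend_apply' _ _ _ ?_
      rintro ⟨j, hj⟩
      have hj' : (j:ℤ) = n := hj
      omega
    have x2 : k < n → Function.extend (fun j : ℕ => k - (j:ℤ)) (fun j => -2 * uu m z k j) 0 n = 0 := by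
      intro h
      refine Function.extend_apply' _ _ _ ?_
      rintro ⟨j, hj⟩
      have hj' : k - (j:ℤ) = n := hj
      omega
    have y1 : ∀ j : ℕ, Function.extend (fun j : ℕ => (j:ℤ)) (fun j => -2 * uu m z k j) 0 (j:ℤ) =
        -2 * uu m z k j := fun j => i1.extend_apply _ _ j
    have y2 : ∀ j : ℕ, Function.extend (fun j : ℕ => k - (j:ℤ)) (fun j => -2 * uu m z k j) 0
        (k - (j:ℤ)) = -2 * uu m z k j := fun j => i2.extend_apply _ _ j
    rcases lt_trichotomy n 0 with hn | hn | hn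
    · rcases lt_or_ge k n with hnk | hnk
      · rw [x1 hn, x2 hnk]
        unfold ff
        rw [Int.sign_eq_neg_one_of_neg hn, Int.sign_eq_neg_one_of_neg (by omega)]
        ring
      · obtain ⟨j, rfl⟩ : ∃ j : ℕ, n = k - (j:ℤ) := ⟨(k - n).toNat, by omega⟩
        rw [x1 hn, y2]
        rcases Nat.eq_zero_or_pos j with hj | hj
        · subst hj
          unfold ff uu w0
          rw [Int.sign_eq_neg_one_of_neg hn, if_pos rfl, habs]
          have e0 : k - (k - ((0:ℕ):ℤ)) = 0 := by push_cast; ring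
          rw [e0, Int.sign_zero]
          push_cast
          rw [show (k:ℝ) - 2 * (k - 0) = -k + 2 * 0 by ring]
          ring
        · unfold ff uu w0
          rw [Int.sign_eq_neg_one_of_neg hn, Int.sign_eq_one_of_pos (by omega),
            if_neg (by omega), habs]
          push_cast
          rw [show (k:ℝ) - 2 * (k - j) = -k + 2 * j by ring]
          ring
    · subst hn
      have z1 := y1 0
      simp only [Nat.cast_zero] at z1
      rw [z1, x2 hk]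
      unfold ff uu w0
      rw [Int.sign_zero, Int.sign_eq_neg_one_of_neg (by omega), if_pos rfl, habs]
      push_cast
      rw [show (k:ℝ) - 2 * 0 = -(-k + 2 * 0) by ring, qf_neg]
      ring
    · obtain ⟨j, rfl⟩ : ∃ j : ℕ, n = (j:ℤ) := ⟨n.toNat, by omega⟩
      rw [y1, x2 (by omega)]
      have hj : j ≠ 0 := by omega
      unfold ff uu w0
      rw [Int.sign_eq_one_of_pos hn, Int.sign_eq_neg_one_of_neg (by omega), if_neg hj, habs]
      push_cast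
      rw [show (k:ℝ) - 2 * (j:ℝ) = -(-k + 2 * j) by ring, qf_neg]
      ring

/-- the general term -/
noncomputable def TT (m z : ℝ) (k : ℤ) (α β c w w' : ℝ) (n : ℤ) : ℂ :=
  (l0 α n + l0 β (k - n)) / ((m:ℂ) + Complex.I * ((k:ℂ) - 2 * (n:ℂ)) * z) +
    (c:ℂ) * (la w n + lb w' (k - n)) / ((m:ℂ) + Complex.I * ((k:ℂ) - 2 * (n:ℂ)) * z) ^ 2

theorem la_eq (w : ℝ) (n : ℤ) : la w n = (((if n = 0 then w else 0 : ℝ)) : ℂ) +
    Complex.I * ((Real.pi / 6 * (n.sign:ℝ) : ℝ) : ℂ) := by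
  unfold la
  split_ifs with h
  · subst h
    simp
  · push_cast
    ring

theorem lb_eq (w : ℝ) (n : ℤ) : lb w n = (((if n = 0 then w else 0 : ℝ)) : ℂ) -
    Complex.I * ((Real.pi / 6 * (n.sign:ℝ) : ℝ) : ℂ) := by
  unfold lb
  split_ifs with h
  · subst h
    simp
  · push_cast
    ring

theorem l0_eq (w : ℝ) (n : ℤ) : l0 w n = (((if n = 0 then w else 0 : ℝ)) : ℂ) := by
  unfold l0
  split_ifs <;> simp

theorem TT_hasSum {m z : ℝ} (hm : m ≠ 0) (hz : 0 < z) (k : ℤ) (α β c w w' : ℝ) :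
    HasSum (fun n : ℤ => TT m z k α β c w w' n + star (TT m z k α β c w w' n))
      ((2 * ((α + β) * R1 m z k + c * ((w + w') * R2 m z k) +
        c * (Real.pi / 6 * (-4 * ∑' j, uu m z k j))) : ℝ) : ℂ) := by
  have hT : ∀ n : ℤ, TT m z k α β c w w' n + star (TT m z k α β c w w' n) =
      ((2 * ((((if n = 0 then α else 0) + (if k - n = 0 then β else 0)) * R1 m z ((k:ℝ) - 2 * n)) +
        c * (((if n = 0 then w else 0) + (if k - n = 0 then w' else 0)) * R2 m z ((k:ℝ) - 2 * n)) +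
        c * (Real.pi / 6 * ff m z k n)) : ℝ) : ℂ) := by
    intro n
    have h := term_eq (m := m) (z := z) (B := (k:ℝ) - 2 * n)
      (a := (if n = 0 then α else 0) + (if k - n = 0 then β else 0))
      (b := (if n = 0 then w else 0) + (if k - n = 0 then w' else 0))
      (e := Real.pi / 6 * ((n.sign:ℝ) - ((k - n).sign : ℝ))) (c := c) hm
    have e1 : TT m z k α β c w w' n =
        ((((if n = 0 then α else 0) + (if k - n = 0 then β else 0) : ℝ):ℂ) /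
          ((m:ℂ) + Complex.I * (((k:ℝ) - 2 * n : ℝ):ℂ) * (z:ℂ)) +
        (c:ℂ) * ((((if n = 0 then w else 0) + (if k - n = 0 then w' else 0) : ℝ):ℂ) +
          Complex.I * ((Real.pi / 6 * ((n.sign:ℝ) - ((k - n).sign : ℝ)) : ℝ):ℂ)) /
          ((m:ℂ) + Complex.I * (((k:ℝ) - 2 * n : ℝ):ℂ) * (z:ℂ)) ^ 2) := by
      unfold TT
      rw [la_eq, lb_eq, l0_eq, l0_eq]
      push_cast
      ring
    rw [e1, h]
    unfold ff
    congr 1
    ring
  have e : (fun n : ℤ => TT m z k α β c w w' n + star (TT m z k α β c w w' n)) = fun n : ℤ =>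
      ((2 * ((((if n = 0 then α else 0) + (if k - n = 0 then β else 0)) * R1 m z ((k:ℝ) - 2 * n)) +
        c * (((if n = 0 then w else 0) + (if k - n = 0 then w' else 0)) * R2 m z ((k:ℝ) - 2 * n)) +
        c * (Real.pi / 6 * ff m z k n)) : ℝ) : ℂ) := funext hT
  rw [e, Complex.hasSum_ofReal]
  refine HasSum.mul_left 2 (HasSum.add (HasSum.add ?_ (HasSum.mul_left c ?_))
    (HasSum.mul_left c (HasSum.mul_left (Real.pi / 6) (ff_hasSum hm hz k))))
  · have h1 : HasSum (fun n : ℤ => (if n = 0 then α else 0) * R1 m z ((k:ℝ) - 2 * n))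
        (α * R1 m z k) := by
      have := hasSum_single (f := fun n : ℤ => (if n = 0 then α else 0) * R1 m z ((k:ℝ) - 2 * n)) 0
        (fun n hn => by simp [hn])
      simpa using this
    have h2 : HasSum (fun n : ℤ => (if k - n = 0 then β else 0) * R1 m z ((k:ℝ) - 2 * n))
        (β * R1 m z k) := by
      have := hasSum_single (f := fun n : ℤ => (if k - n = 0 then β else 0) *
        R1 m z ((k:ℝ) - 2 * n)) k (fun n hn => by
          have : ¬ k - n = 0 := by omega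
          simp [this])
      simp only [sub_self, if_true] at this
      rw [show (k:ℝ) - 2 * k = -k by ring, R1_neg] at this
      exact this
    simpa only [add_mul] using h1.add h2
  · have h1 : HasSum (fun n : ℤ => (if n = 0 then w else 0) * R2 m z ((k:ℝ) - 2 * n))
        (w * R2 m z k) := by
      have := hasSum_single (f := fun n : ℤ => (if n = 0 then w else 0) * R2 m z ((k:ℝ) - 2 * n)) 0
        (fun n hn => by simp [hn])
      simpa using this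
    have h2 : HasSum (fun n : ℤ => (if k - n = 0 then w' else 0) * R2 m z ((k:ℝ) - 2 * n))
        (w' * R2 m z k) := by
      have := hasSum_single (f := fun n : ℤ => (if k - n = 0 then w' else 0) *
        R2 m z ((k:ℝ) - 2 * n)) k (fun n hn => by
          have : ¬ k - n = 0 := by omega
          simp [this])
      simp only [sub_self, if_true] at this
      rw [show (k:ℝ) - 2 * k = -k by ring, R2_neg] at this
      exact this
    simpa only [add_mul] using h1.add h2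

/-! ### Expression in `t = m/z` -/

theorem tau_eq {m z : ℝ} (hz : 0 < z) (k : ℤ) :
    ((∑' j, uu m z k j : ℝ) : ℂ) = 2 / (z:ℂ) ^ 2 * tauc k ((m:ℂ) / (z:ℂ)) := by
  unfold tauc
  rw [Complex.ofReal_tsum, ← mul_assoc, ← tsum_mul_left]
  refine tsum_congr fun j => ?_
  unfold uu qf
  have hz' : (z:ℂ) ≠ 0 := by exact_mod_cast hz.ne'
  set A : ℝ := |(k:ℝ)| + 2 * j with hA
  have e : ((m:ℂ) / (z:ℂ)) ^ 2 + (A:ℂ) ^ 2 = ((m:ℂ) ^ 2 + (A:ℂ) ^ 2 * (z:ℂ) ^ 2) / (z:ℂ) ^ 2 := by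
    field_simp
  rw [e]
  push_cast
  rw [div_pow, div_div_eq_mul_div]
  field_simp

theorem R1_eq {m z : ℝ} (hz : 0 < z) (k : ℤ) :
    ((R1 m z k : ℝ) : ℂ) = (z:ℂ)⁻¹ * mu0 k ((m:ℂ) / (z:ℂ)) := by
  unfold R1 mu0
  have hz' : (z:ℂ) ≠ 0 := by exact_mod_cast hz.ne'
  have e : ((m:ℂ) / (z:ℂ)) ^ 2 + (k:ℂ) ^ 2 = ((m:ℂ) ^ 2 + (k:ℂ) ^ 2 * (z:ℂ) ^ 2) / (z:ℂ) ^ 2 := by
    field_simp
  rw [e]
  push_cast
  rw [div_div_eq_mul_div]
  field_simp

theorem R2_eq {m z : ℝ} (hz : 0 < z) (k : ℤ) :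
    ((R2 m z k : ℝ) : ℂ) = ((z:ℂ) ^ 2)⁻¹ * ph1 k ((m:ℂ) / (z:ℂ)) := by
  unfold R2 ph1
  have hz' : (z:ℂ) ≠ 0 := by exact_mod_cast hz.ne'
  have e : ((m:ℂ) / (z:ℂ)) ^ 2 + (k:ℂ) ^ 2 = ((m:ℂ) ^ 2 + (k:ℂ) ^ 2 * (z:ℂ) ^ 2) / (z:ℂ) ^ 2 := by
    field_simp
  have e2 : ((m:ℂ) / (z:ℂ)) ^ 2 - (k:ℂ) ^ 2 = ((m:ℂ) ^ 2 - (k:ℂ) ^ 2 * (z:ℂ) ^ 2) / (z:ℂ) ^ 2 := by
    field_simp
  rw [e, e2]
  push_cast
  rw [div_pow, div_div_eq_mul_div]
  field_simp

theorem mu0_neg (k : ℤ) (t : ℂ) : mu0 (-k) (-t) = -mu0 k t := by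
  unfold mu0
  push_cast
  rw [neg_sq, neg_sq, neg_div]

theorem ph1_neg (k : ℤ) (t : ℂ) : ph1 (-k) (-t) = ph1 k t := by
  unfold ph1
  push_cast
  rw [neg_sq, neg_sq]

theorem tauc_neg (k : ℤ) (t : ℂ) : tauc (-k) (-t) = -tauc k t := by
  unfold tauc
  push_cast
  rw [neg_mul, neg_sq, abs_neg]

theorem thm : G_FY := by
  intro z hz s hs
  obtain ⟨k, m⟩ := s
  simp only at hs
  have hz' : (z:ℂ) ≠ 0 := by exact_mod_cast hz.ne'
  have hm : ((m:ℤ):ℝ) ≠ 0 := by exact_mod_cast hs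
  have hY := TT_hasSum (m := (m:ℝ)) (z := z) hm hz k (Real.pi ^ 2 / 9) 0 1 w1 w1
  have hW := TT_hasSum (m := -(m:ℝ)) (z := z) (neg_ne_zero.2 hm) hz (-k) (Real.pi ^ 2 / 9)
    (Real.pi ^ 2 / 36) 2 w1 0
  have eY : ∀ n : ℤ, MY' z (k, m) n = TT (m:ℝ) z k (Real.pi ^ 2 / 9) 0 1 w1 w1 n := by
    intro n
    unfold MY' TT Dz
    have h0 : l0 0 (k - n) = 0 := by unfold l0; simp
    rw [h0]
    push_cast
    ring
  have eW : ∀ n : ℤ, MW' z (-(k, m)) n =
      TT (-(m:ℝ)) z (-k) (Real.pi ^ 2 / 9) (Real.pi ^ 2 / 36) 2 w1 0 n := by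
    intro n
    unfold MW' TT Dz
    simp only [Prod.fst_neg, Prod.snd_neg]
    push_cast
    ring
  have sY : ∑' n : ℤ, -(Complex.I * z ^ 3) * (MY' z (k, m) n + star (MY' z (k, m) n)) =
      Complex.I * z ^ 2 * yM z (k, m) := by
    rw [tsum_mul_left]
    simp only [eY]
    rw [hY.tsum_eq]
    have q1 := R1_eq (m := (m:ℝ)) hz k
    have q2 := R2_eq (m := (m:ℝ)) hz k
    have q3 := tau_eq (m := (m:ℝ)) hz k
    unfold yM aF bF tz
    simp only
    push_cast at q1 q2 q3 ⊢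
    rw [q1, q2, q3]
    field_simp
    ring
  have sW : ∑' n : ℤ, -(Complex.I * z ^ 3) * (MW' z (-(k, m)) n + star (MW' z (-(k, m)) n)) =
      -(Complex.I * z ^ 3) * (2 * (-((Real.pi:ℂ) ^ 2 / 9 + (Real.pi:ℂ) ^ 2 / 36) * ((z:ℂ)⁻¹ *
        mu0 k ((m:ℂ) / (z:ℂ))) + 2 * ((w1:ℂ) * (((z:ℂ) ^ 2)⁻¹ * ph1 k ((m:ℂ) / (z:ℂ)))) +
        2 * ((Real.pi:ℂ) / 6 * (4 * (2 / (z:ℂ) ^ 2 * tauc k ((m:ℂ) / (z:ℂ))))))) := by
    rw [tsum_mul_left]
    simp only [eW]
    rw [hW.tsum_eq]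
    have q1 := R1_eq (m := -(m:ℝ)) hz (-k)
    have q2 := R2_eq (m := -(m:ℝ)) hz (-k)
    have q3 := tau_eq (m := -(m:ℝ)) hz (-k)
    have e : ((-(m:ℝ) : ℝ) : ℂ) / (z:ℂ) = -((m:ℂ) / (z:ℂ)) := by push_cast; ring
    rw [e, mu0_neg] at q1
    rw [e, ph1_neg] at q2
    rw [e, tauc_neg] at q3
    push_cast at q1 q2 q3 ⊢
    rw [q1, q2, q3]
    ring
  refine ⟨sY, ?_⟩
  rw [sY, sW]
  unfold yM vM aF bF cF dF tz
  simp only
  field_simp
  ring

end EC237.ZE.PkFY
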