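import Pool.Agent.Helper7.EC_E.GoalsM

/-! Packet MD of MP_ecc237_nt, Part E: a relation between multiple zeta values of weight 5. -/

set_option autoImplicit false

open MeasureTheory Filter Topology Set

namespace EC237.ZE.PkMD

theorem Hs_succ (a n : ℕ) : Hs a (n + 1) = Hs a n + 1 / ((n:ℝ) + 1) ^ a := by
  unfold Hs
  rw [Finset.sum_range_succ]

theorem Hs_nonneg (a n : ℕ) : 0 ≤ Hs a n := Finset.sum_nonneg fun _ _ => by positivity

theorem En_succ (n : ℕ) : En (n + 1) = En n + Hs 1 n / ((n:ℝ) + 1) := by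
  unfold En
  rw [Finset.sum_range_succ]

theorem Zn_succ (n : ℕ) : Zn (n + 1) = Zn n + Hs 1 n / ((n:ℝ) + 1) ^ 2 := by
  unfold Zn
  rw [Finset.sum_range_succ]

theorem En_nonneg (n : ℕ) : 0 ≤ En n :=
  Finset.sum_nonneg fun m _ => div_nonneg (Hs_nonneg 1 m) (by positivity)

theorem Zn_nonneg (n : ℕ) : 0 ≤ Zn n :=
  Finset.sum_nonneg fun m _ => div_nonneg (Hs_nonneg 1 m) (by positivity)

theorem Hs_sq (n : ℕ) : Hs 1 n ^ 2 = 2 * En n + Hs 2 n := by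
  induction n with
  | zero => simp [Hs, En]
  | succ n ih =>
    rw [Hs_succ, En_succ, Hs_succ, add_sq, ih, pow_one, div_pow, one_pow]
    ring

theorem Hs_le (n : ℕ) : Hs 1 n ≤ 2 * Real.sqrt n := by
  induction n with
  | zero => simp [Hs]
  | succ n ih =>
    rw [Hs_succ, pow_one]
    push_cast
    have h0 : (0:ℝ) ≤ n := Nat.cast_nonneg n
    have h1 : Real.sqrt n ^ 2 = n := Real.sq_sqrt h0
    have h2 : Real.sqrt ((n:ℝ) + 1) ^ 2 = n + 1 := Real.sq_sqrt (by positivity)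
    have h3 : 0 ≤ Real.sqrt n := Real.sqrt_nonneg _
    have h4 : 1 ≤ Real.sqrt ((n:ℝ) + 1) := by
      have h5 : Real.sqrt 1 ≤ Real.sqrt ((n:ℝ) + 1) := Real.sqrt_le_sqrt (by linarith)
      rwa [Real.sqrt_one] at h5
    have h5 : Real.sqrt n ≤ Real.sqrt ((n:ℝ) + 1) := Real.sqrt_le_sqrt (by linarith)
    set a := Real.sqrt n
    set b := Real.sqrt ((n:ℝ) + 1)
    have h6 : 1 / ((n:ℝ) + 1) ≤ 2 * (b - a) := by
      rw [← h2, div_le_iff₀ (by positivity)]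
      have h7 : (b - a) * (b + a) = 1 := by nlinarith
      have h8 : b + a ≤ 2 * b ^ 2 := by nlinarith
      have h9 : 0 ≤ b - a := by linarith
      nlinarith
    linarith

/-- `Σ_l (1/(l+1) - 1/(l+1+n)) = H_n`. -/
theorem hasSum_tel (n : ℕ) :
    HasSum (fun l : ℕ => 1 / ((l:ℝ) + 1) - 1 / ((l:ℝ) + 1 + n)) (Hs 1 n) := by
  induction n with
  | zero => simp [Hs]
  | succ n ih =>
    have h1 : HasSum (fun l : ℕ => 1 / ((l:ℝ) + 1 + n) - 1 / ((l:ℝ) + 1 + (n + 1))) 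
        (1 / ((n:ℝ) + 1)) := by
      rw [hasSum_iff_tendsto_nat_of_nonneg]
      · have e : ∀ N : ℕ, ∑ l ∈ Finset.range N, (1 / ((l:ℝ) + 1 + n) - 1 / ((l:ℝ) + 1 + (n + 1))) =
            1 / ((n:ℝ) + 1) - 1 / ((N:ℝ) + 1 + n) := by
          intro N
          have := Finset.sum_range_sub' (fun l : ℕ => 1 / ((l:ℝ) + 1 + n)) N
          rw [show 1 / ((n:ℝ) + 1) = 1 / (((0:ℕ):ℝ) + 1 + n) by push_cast; ring, ← this]
          refine Finset.sum_congr rfl fun l _ => ?_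
          push_cast
          ring
        simp only [e]
        have h2 : Tendsto (fun N : ℕ => 1 / ((N:ℝ) + 1 + n)) atTop (𝓝 0) := by
          have h3 := (tendsto_one_div_add_atTop_nhds_zero_nat (𝕜 := ℝ)).comp
            (tendsto_add_atTop_nat n)
          refine h3.congr fun N => ?_
          simp only [Function.comp]
          push_cast
          ring
        simpa using h2.const_sub (1 / ((n:ℝ) + 1))
      · intro l
        rw [sub_nonneg]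
        exact one_div_le_one_div_of_le (by positivity) (by linarith)
    have h2 := ih.add h1
    rw [Hs_succ, pow_one]
    have e : (fun l : ℕ => 1 / ((l:ℝ) + 1) - 1 / ((l:ℝ) + 1 + ((n + 1 : ℕ) : ℝ))) =
        fun l : ℕ => (1 / ((l:ℝ) + 1) - 1 / ((l:ℝ) + 1 + n)) +
          (1 / ((l:ℝ) + 1 + n) - 1 / ((l:ℝ) + 1 + (n + 1))) := by
      funext l
      push_cast
      ring
    rw [e]
    exact h2

/-- the double series -/
noncomputable def g (p : ℕ × ℕ) : ℝ :=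
  Hs 1 p.1 / (((p.1:ℝ) + 1) ^ 2 * ((p.2:ℝ) + 1) * ((p.1:ℝ) + p.2 + 2))

theorem g_nonneg (p : ℕ × ℕ) : 0 ≤ g p := div_nonneg (Hs_nonneg 1 _) (by positivity)

/-- the terms of `A` -/
noncomputable def AA (n : ℕ) : ℝ := Hs 1 n * Hs 1 (n + 1) / ((n:ℝ) + 1) ^ 3

theorem g_row (n : ℕ) : HasSum (fun l => g (n, l)) (AA n) := by
  have h := (hasSum_tel (n + 1)).mul_left (Hs 1 n / ((n:ℝ) + 1) ^ 3)
  have e : (fun l : ℕ => g (n, l)) = fun l : ℕ => Hs 1 n / ((n:ℝ) + 1) ^ 3 *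
      (1 / ((l:ℝ) + 1) - 1 / ((l:ℝ) + 1 + ((n + 1 : ℕ) : ℝ))) := by
    funext l
    unfold g
    push_cast
    have h1 : ((n:ℝ) + 1) ≠ 0 := by positivity
    have h2 : ((l:ℝ) + 1) ≠ 0 := by positivity
    have h3 : ((l:ℝ) + 1 + (n + 1)) ≠ 0 := by positivity
    have h4 : ((n:ℝ) + l + 2) ≠ 0 := by positivity
    field_simp
    ring
  rw [e]
  have e2 : AA n = Hs 1 n / ((n:ℝ) + 1) ^ 3 * Hs 1 (n + 1) := by
    unfold AA
    ring
  rw [e2]
  exact h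

theorem AA_summable : Summable AA := by
  have h : Summable (fun n : ℕ => 4 * (1 / ((n:ℝ) + 1) ^ 2)) := by
    have h1 := (summable_nat_add_iff (f := fun m : ℕ => 1 / (m:ℝ) ^ 2) 1).2
      (Real.summable_one_div_nat_pow.2 (by norm_num))
    refine (h1.congr fun m => ?_).mul_left 4
    push_cast
    rfl
  refine Summable.of_nonneg_of_le (fun n => ?_) (fun n => ?_) h
  · exact div_nonneg (mul_nonneg (Hs_nonneg 1 _) (Hs_nonneg 1 _)) (by positivity)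
  · unfold AA
    have h1 : Hs 1 n ≤ Hs 1 (n + 1) := by
      rw [Hs_succ]
      have : (0:ℝ) ≤ 1 / ((n:ℝ) + 1) ^ 1 := by positivity
      linarith
    have h2 := Hs_le (n + 1)
    have h3 := Hs_nonneg 1 n
    have h4 := Hs_nonneg 1 (n + 1)
    have h5 : Real.sqrt ((n + 1 : ℕ) : ℝ) ^ 2 = (n + 1 : ℕ) := Real.sq_sqrt (by positivity)
    have h6 : Hs 1 n * Hs 1 (n + 1) ≤ 4 * ((n:ℝ) + 1) := by
      have h7 : Hs 1 n * Hs 1 (n + 1) ≤ Hs 1 (n + 1) * Hs 1 (n + 1) :=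
        mul_le_mul_of_nonneg_right h1 h4
      have h8 : Hs 1 (n + 1) * Hs 1 (n + 1) ≤
          (2 * Real.sqrt ((n + 1 : ℕ) : ℝ)) * (2 * Real.sqrt ((n + 1 : ℕ) : ℝ)) :=
        mul_le_mul h2 h2 h4 (by positivity)
      push_cast at h5 h8
      nlinarith
    rw [div_le_iff₀ (by positivity)]
    refine h6.trans (le_of_eq ?_)
    field_simp

theorem g_summable : Summable g := by
  rw [summable_prod_of_nonneg (fun p => g_nonneg p)]
  refine ⟨fun n => (g_row n).summable, ?_⟩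
  refine AA_summable.congr fun n => ?_
  rw [(g_row n).tsum_eq]

theorem g_tsum : ∑' p, g p = ∑' n, AA n := by
  rw [g_summable.tsum_prod]
  exact tsum_congr fun n => (g_row n).tsum_eq

/-- antidiagonal -/
abbrev ad (n : ℕ) : Finset (ℕ × ℕ) := Finset.HasAntidiagonal.antidiagonal n

/-- antidiagonal sums -/
theorem g_anti : HasSum (fun N : ℕ => ∑ p ∈ ad N, g p) (∑' n, AA n) := by
  have h1 : HasSum g (∑' n, AA n) := by rw [← g_tsum]; exact g_summable.hasSum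
  rw [← (Finset.HasAntidiagonal.sigmaAntidiagonalEquivProd (A := ℕ)).hasSum_iff] at h1
  refine h1.sigma fun N => ?_
  have h2 := hasSum_fintype (fun p : ad N => g p)
  rw [Finset.sum_coe_sort (ad N) g] at h2
  exact h2

theorem ad_fst (f : ℕ → ℝ) (M : ℕ) : ∑ p ∈ ad M, f p.1 = ∑ k ∈ Finset.range (M + 1), f k :=
  Finset.Nat.sum_antidiagonal_eq_sum_range_succ_mk (fun p => f p.1) M

theorem ad_snd (f : ℕ → ℝ) (M : ℕ) : ∑ p ∈ ad M, f p.2 = ∑ k ∈ Finset.range (M + 1), f k := by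
  rw [← ad_fst]
  exact Finset.Nat.sum_antidiagonal_swap (f := fun p : ℕ × ℕ => f p.1)

theorem ad_eq {M : ℕ} {p : ℕ × ℕ} (hp : p ∈ ad M) : (p.1:ℝ) + p.2 + 2 = (M:ℝ) + 2 := by
  have h : p.1 + p.2 = M := Finset.HasAntidiagonal.mem_antidiagonal.1 hp
  rw [← h]
  push_cast
  rfl

theorem conv (M : ℕ) : ∑ p ∈ ad M, 1 / (((p.1:ℝ) + 1) * ((p.2:ℝ) + 1)) =
    2 * Hs 1 (M + 1) / ((M:ℝ) + 2) := by
  have h1 : ∀ p ∈ ad M, 1 / (((p.1:ℝ) + 1) * ((p.2:ℝ) + 1)) =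
      (1 / ((p.1:ℝ) + 1) + 1 / ((p.2:ℝ) + 1)) / ((M:ℝ) + 2) := by
    intro p hp
    rw [← ad_eq hp]
    have h3 : ((p.1:ℝ) + 1) ≠ 0 := by positivity
    have h4 : ((p.2:ℝ) + 1) ≠ 0 := by positivity
    have h5 : ((p.1:ℝ) + p.2 + 2) ≠ 0 := by positivity
    field_simp
    ring
  rw [Finset.sum_congr rfl h1, ← Finset.sum_div, Finset.sum_add_distrib,
    ad_fst (fun k => 1 / ((k:ℝ) + 1)), ad_snd (fun k => 1 / ((k:ℝ) + 1))]
  unfold Hs
  simp only [pow_one]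
  ring

theorem conv2 (M : ℕ) : ∑ p ∈ ad M, Hs 1 p.1 / ((p.2:ℝ) + 1) = 2 * En (M + 1) := by
  induction M with
  | zero => simp [ad, Hs, En]
  | succ M ih =>
    have h := Finset.Nat.sum_antidiagonal_succ (n := M)
      (f := fun p : ℕ × ℕ => Hs 1 p.1 / ((p.2:ℝ) + 1))
    show ∑ p ∈ Finset.HasAntidiagonal.antidiagonal (M + 1), Hs 1 p.1 / ((p.2:ℝ) + 1) = _
    rw [h]
    have h2 : ∀ p ∈ ad M, Hs 1 (p.1 + 1) / ((p.2:ℝ) + 1) =
        Hs 1 p.1 / ((p.2:ℝ) + 1) + 1 / (((p.1:ℝ) + 1) * ((p.2:ℝ) + 1)) := by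
      intro p _
      rw [Hs_succ, pow_one]
      have h3 : ((p.1:ℝ) + 1) ≠ 0 := by positivity
      have h4 : ((p.2:ℝ) + 1) ≠ 0 := by positivity
      field_simp
    have h3 : ∑ p ∈ Finset.HasAntidiagonal.antidiagonal M, Hs 1 (p.1 + 1) / ((p.2:ℝ) + 1) =
        2 * En (M + 1) + 2 * Hs 1 (M + 1) / ((M:ℝ) + 2) := by
      rw [Finset.sum_congr rfl h2, Finset.sum_add_distrib, conv]
      congr 1
    simp only
    rw [h3, En_succ (M + 1)]
    have h4 : Hs 1 0 = 0 := by simp [Hs]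
    rw [h4]
    push_cast
    ring

/-- the terms of the second sum -/
noncomputable def FF (n : ℕ) : ℝ := Zn n / ((n:ℝ) + 1) ^ 2 + 3 * En n / ((n:ℝ) + 1) ^ 3

theorem g_sum (M : ℕ) : ∑ p ∈ ad M, g p = FF (M + 1) := by
  have h1 : ∀ p ∈ ad M, g p = 1 / ((M:ℝ) + 2) ^ 2 * (Hs 1 p.1 / ((p.1:ℝ) + 1) ^ 2) +
      1 / ((M:ℝ) + 2) ^ 3 * (Hs 1 p.1 / ((p.1:ℝ) + 1)) +
      1 / ((M:ℝ) + 2) ^ 3 * (Hs 1 p.1 / ((p.2:ℝ) + 1)) := by
    intro p hp
    unfold g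
    rw [← ad_eq hp]
    have h3 : ((p.1:ℝ) + 1) ≠ 0 := by positivity
    have h4 : ((p.2:ℝ) + 1) ≠ 0 := by positivity
    have h5 : ((p.1:ℝ) + p.2 + 2) ≠ 0 := by positivity
    field_simp
    ring
  rw [Finset.sum_congr rfl h1, Finset.sum_add_distrib, Finset.sum_add_distrib, ← Finset.mul_sum,
    ← Finset.mul_sum, ← Finset.mul_sum, conv2, ad_fst (fun k => Hs 1 k / ((k:ℝ) + 1) ^ 2),
    ad_fst (fun k => Hs 1 k / ((k:ℝ) + 1))]
  have e1 : ∑ k ∈ Finset.range (M + 1), Hs 1 k / ((k:ℝ) + 1) ^ 2 = Zn (M + 1) := rfl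
  have e2 : ∑ k ∈ Finset.range (M + 1), Hs 1 k / ((k:ℝ) + 1) = En (M + 1) := rfl
  rw [e1, e2]
  unfold FF
  push_cast
  ring

theorem FF_hasSum : HasSum FF (∑' n, AA n) := by
  have h1 : HasSum (fun N : ℕ => FF (N + 1)) (∑' n, AA n) := by
    have e : (fun N : ℕ => FF (N + 1)) = fun N : ℕ => ∑ p ∈ ad N, g p := by
      funext N
      rw [g_sum]
    rw [e]
    exact g_anti
  have h2 := (hasSum_nat_add_iff (f := FF) 1).1 h1
  have h3 : ∑ i ∈ Finset.range 1, FF i = 0 := by simp [FF, Zn, En]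
  rwa [h3, add_zero] at h2

theorem thm : G_MD := by
  unfold G_MD
  have hA : ∀ n, AA n = (2 * (En n / ((n:ℝ) + 1) ^ 3) + Hs 2 n / ((n:ℝ) + 1) ^ 3) +
      Hs 1 n / ((n:ℝ) + 1) ^ 4 := by
    intro n
    unfold AA
    have h := Hs_sq n
    rw [Hs_succ, pow_one, mul_add, ← sq, h]
    have h3 : ((n:ℝ) + 1) ≠ 0 := by positivity
    field_simp
  have hF : ∀ n, FF n = Zn n / ((n:ℝ) + 1) ^ 2 + 3 * (En n / ((n:ℝ) + 1) ^ 3) := by
    intro n
    unfold FF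
    ring
  have p1 : ∀ n : ℕ, 0 ≤ En n / ((n:ℝ) + 1) ^ 3 := fun n => div_nonneg (En_nonneg n) (by positivity)
  have p2 : ∀ n : ℕ, 0 ≤ Hs 2 n / ((n:ℝ) + 1) ^ 3 := fun n => div_nonneg (Hs_nonneg 2 n) (by positivity)
  have p3 : ∀ n : ℕ, 0 ≤ Hs 1 n / ((n:ℝ) + 1) ^ 4 := fun n => div_nonneg (Hs_nonneg 1 n) (by positivity)
  have p4 : ∀ n : ℕ, 0 ≤ Zn n / ((n:ℝ) + 1) ^ 2 := fun n => div_nonneg (Zn_nonneg n) (by positivity)
  have s1 : Summable (fun n : ℕ => En n / ((n:ℝ) + 1) ^ 3) :=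
    Summable.of_nonneg_of_le p1 (fun n => by rw [hA]; linarith [p1 n, p2 n, p3 n]) AA_summable
  have s2 : Summable (fun n : ℕ => Hs 2 n / ((n:ℝ) + 1) ^ 3) :=
    Summable.of_nonneg_of_le p2 (fun n => by rw [hA]; linarith [p1 n, p2 n, p3 n]) AA_summable
  have s3 : Summable (fun n : ℕ => Hs 1 n / ((n:ℝ) + 1) ^ 4) :=
    Summable.of_nonneg_of_le p3 (fun n => by rw [hA]; linarith [p1 n, p2 n, p3 n]) AA_summable
  have s4 : Summable (fun n : ℕ => Zn n / ((n:ℝ) + 1) ^ 2) :=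
    Summable.of_nonneg_of_le p4 (fun n => by rw [hF]; linarith [p1 n, p4 n]) FF_hasSum.summable
  have t1 : ∑' n, AA n = (2 * z311 + z32) + z41 := by
    rw [tsum_congr hA, ((s1.mul_left 2).add s2).tsum_add s3, (s1.mul_left 2).tsum_add s2,
      tsum_mul_left]
    rfl
  have t2 : ∑' n, AA n = z221 + 3 * z311 := by
    rw [← FF_hasSum.tsum_eq, tsum_congr hF, s4.tsum_add (s1.mul_left 3), tsum_mul_left]
    rfl
  linarith

end EC237.ZE.PkMD
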